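import Pool.Agent.H77.EA.Targets3
import Pool.Agent.H19.AM.EA

/-!
# Equivariant Alperin–McKay (MP_657073_al), XD: degrees of the characters above, `ℓ`-power index
-/

open scoped Classical ComplexConjugate

set_option linter.unusedSectionVars false

namespace Pool.Agent.H68.EA.XD

open AMc AMe AMc.HE

section

variable {Γ : Type} [Group Γ] [Fintype Γ]

/-- a character of the intermediate normal subgroup between `χ` and `θ` -/
theorem mid (h1 : T_S1) (h2 : T_S2) (h3 : T_S3) (h6 : T_S6) (h7 : T_S7) {X M K : Subgroup Γ}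
    (hMX : M ≤ X) (hKM : K ≤ M) (hM : ∀ u ∈ X, ∀ g ∈ M, u * g * u⁻¹ ∈ M)
    (hK : ∀ u ∈ X, ∀ g ∈ K, u * g * u⁻¹ ∈ K) {χ θ μ : Γ → ℂ} (hχ : χ ∈ IrrS X)
    (hθ : θ ∈ IrrS K) (hμ : μ ∈ IrrS M) (hO : Over χ θ) (hO' : Over χ μ) :
    ∃ φ ∈ IrrS M, Over χ φ ∧ Over φ θ := by
  by_contra hcon
  push Not at hcon
  have hs := (h1 Γ K θ hθ).1
  have hs' := (h1 Γ M μ hμ).1
  have hz : elt (ind X θ) ∈ ZA ℂ K X :=
    elt_mem (fun g hg => ind_supp hK hs hg) (fun u hu g => ind_conj X θ hu g)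
  have hz' : elt (ind X μ) ∈ ZA ℂ M X :=
    elt_mem (fun g hg => ind_supp hM hs' hg) (fun u hu g => ind_conj X μ hu g)
  have hzM : elt (ind X θ) ∈ ZA ℂ M M :=
    ⟨fun g hg => hz.1 g (fun h => hg (hKM h)), fun u hu => hz.2 u (hMX hu)⟩
  have hzM' : elt (ind X μ) ∈ ZA ℂ M M := ⟨hz'.1, fun u hu => hz'.2 u (hMX hu)⟩
  have hzX : elt (ind X θ) ∈ ZA ℂ X X :=
    ⟨fun g hg => hz.1 g (fun h => hg (hMX (hKM h))), hz.2⟩
  have hzX' : elt (ind X μ) ∈ ZA ℂ X X := ⟨fun g hg => hz'.1 g (fun h => hg (hMX h)), hz'.2⟩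
  have hip : ∀ (η φ : Γ → ℂ), ip φ (ind X η) ≠ 0 → ∃ u ∈ X, ip φ (cj u η) ≠ 0 := by
    intro η φ hne
    have h4 : ip φ (ind X η) = ∑ u : X, ip φ (cj (u : Γ) η) := by
      unfold ip
      rw [Finset.sum_comm]
      refine Finset.sum_congr rfl fun x _ => ?_
      rw [ind_eq, map_sum, Finset.mul_sum]
    rw [h4] at hne
    obtain ⟨u, _, hu⟩ := Finset.exists_ne_zero_of_sum_ne_zero hne
    exact ⟨u, u.2, hu⟩
  have hprod : elt (ind X θ) * elt (ind X μ) = 0 := by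
    apply ZA_eq_zero h1 h3 ((ZA ℂ M M).mul_mem hzM hzM')
    intro φ hφ
    have h4 := h6 Γ M φ hφ _ hzM _ hzM'
    rw [sum_elt, sum_elt] at h4
    have h5 : ip φ (ind X θ) * ip φ (ind X μ) = 0 := by
      by_contra hne
      obtain ⟨hne1, hne2⟩ := mul_ne_zero_iff.mp hne
      obtain ⟨u, hu, hu'⟩ := hip θ φ hne1
      obtain ⟨v, hv, hv'⟩ := hip μ φ hne2
      -- `φ` is conjugate to `μ`
      have e1 : φ = cj v μ := by
        by_contra hne'
        apply hv'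
        have := h2 Γ M φ (cj v μ) hφ (HE.cj_mem h7 hM hμ hv)
        rw [if_neg hne'] at this
        exact this
      have e2 : Over χ φ := by
        rw [e1, over_iff, ip_cj_right h1 hχ hv]
        exact hO'
      have e3 : Over χ (cj u⁻¹ φ) := by
        rw [over_iff, ip_cj_right h1 hχ (X.inv_mem hu)]
        exact e2
      refine hcon (cj u⁻¹ φ) (HE.cj_mem h7 hM hφ (X.inv_mem hu)) e3 ?_
      rw [over_iff, ← ip_cj_cj u, ← HE.cj_mul, inv_mul_cancel, HE.cj_one]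
      exact hu'
    rw [h5] at h4
    obtain ⟨d, hd, hφ1⟩ := (h1 Γ M φ hφ).2.2.1
    rcases mul_eq_zero.mp h4 with h8 | h8
    · exact h8
    · rw [hφ1] at h8
      exact absurd (by exact_mod_cast h8) (Nat.pos_iff_ne_zero.mp hd)
  have h4 := h6 Γ X χ hχ _ hzX _ hzX'
  rw [hprod, sum_elt, sum_elt, ip_ind h1 hχ, ip_ind h1 hχ] at h4
  simp only [MonoidAlgebra.coeff_zero, Finsupp.coe_zero, Pi.zero_apply, zero_mul,
    Finset.sum_const_zero] at h4
  have h5 : (Nat.card X : ℂ) * ip χ θ * ((Nat.card X : ℂ) * ip χ μ) ≠ 0 :=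
    mul_ne_zero (mul_ne_zero (natCard_ne_zero X) hO) (mul_ne_zero (natCard_ne_zero X) hO')
  exact h5 h4.symm

end

theorem xd (hXC : T_XC) (hXB : T_XB) (hE1 : T_E1) (h1 : T_S1) (h2 : T_S2) (h3 : T_S3)
    (h6 : T_S6) (h7 : T_S7) : T_XD := by
  intro F _ π hπ ℓ hℓ _ Γ _ _ X K
  have hℓ2 : 2 ≤ ℓ := hℓ.out.two_le
  suffices h : ∀ (m : ℕ) (X : Subgroup Γ), K.relIndex X = m → LP ℓ X K → ∀ χ ∈ IrrS X,
      ∀ θ ∈ IrrS K, Over χ θ → ∃ b : ℕ, χ 1 = (ℓ : ℂ) ^ b * θ 1 ∧ (b = 0 → ∀ k ∈ K, χ k = θ k) by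
    exact h _ X rfl
  intro m
  induction m using Nat.strong_induction_on with
  | _ m ih =>
    intro X hm hLP χ hχ θ hθ hO
    rcases hXC ℓ Γ X K hLP with hKX | ⟨M, hXM, hMK, hidx, hidx2⟩
    · subst hKX
      have h4 := h2 Γ K χ θ hχ hθ
      have h5 : χ = θ := by
        by_contra hne
        rw [if_neg hne] at h4
        exact hO h4
      subst h5
      exact ⟨0, by rw [pow_zero, one_mul], fun _ _ _ => rfl⟩
    · obtain ⟨μ', hμ', hOμ'⟩ := hE1 Γ M X hXM.le χ hχ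
      obtain ⟨μ, hμ, hO1, hO2⟩ := mid h1 h2 h3 h6 h7 hXM.le hMK.le hXM.nor hLP.nor hχ hθ hμ' hO
        hOμ'
      have hpos : 0 < K.relIndex M := Nat.pos_of_ne_zero
        (Subgroup.index_ne_zero_of_finite (H := K.subgroupOf M))
      have hlt : K.relIndex M < m := by
        rw [← hm, hidx2]
        nlinarith
      obtain ⟨b, hb1, hb2⟩ := ih _ hlt M rfl hMK μ hμ θ hθ hO2
      rcases (hXB F π hπ ℓ Γ X M hXM hidx).2.1 χ hχ μ hμ hO1 with h4 | h4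
      · refine ⟨b, ?_, fun h0 k hk => ?_⟩
        · rw [h4 1 M.one_mem, hb1]
        · rw [h4 k (hMK.le hk), hb2 h0 k hk]
      · refine ⟨b + 1, ?_, fun h0 => absurd h0 (Nat.succ_ne_zero b)⟩
        rw [h4, hb1]
        ring

end Pool.Agent.H68.EA.XD
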