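import Pool.Agent.H77.EA.Targets3
import Pool.Agent.H48.EA.XA

/-!
# Equivariant Alperin–McKay (MP_657073_al), XB: normal subgroups of index `ℓ`, without a
homomorphism defined on `Γ`
-/

open scoped Classical ComplexConjugate

set_option linter.unusedSectionVars false

namespace Pool.Agent.H68.EA

open AMc AMe

theorem xb (hXA : T_XA) (hCL : T_CL) (hUN : T_UN) (hDX : T_DX) : T_XB := by
  intro F _ π hπ ℓ _ _ Γ _ _ X K hLP hidx
  have hℓ : ℓ.Prime := Fact.out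
  -- the quotient
  have hnor : (K.subgroupOf X).Normal := by
    refine ⟨fun n hn g => ?_⟩
    rw [Subgroup.mem_subgroupOf] at hn ⊢
    exact hLP.nor g g.2 n hn
  have hcard : Nat.card (X ⧸ K.subgroupOf X) = ℓ := hidx
  have hcyc : IsCyclic (X ⧸ K.subgroupOf X) := isCyclic_of_prime_card hcard
  let _ : CommGroup (X ⧸ K.subgroupOf X) := IsCyclic.commGroup
  have hfin : Finite (X ⧸ K.subgroupOf X) := inferInstance
  obtain ⟨t, ht⟩ : ∃ t : X, t ∉ K.subgroupOf X := by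
    by_contra hcon
    push Not at hcon
    have h1 : K.subgroupOf X = ⊤ := by
      ext x
      exact ⟨fun _ => trivial, fun _ => hcon x⟩
    have h2 : K.relIndex X = 1 := by
      show (K.subgroupOf X).index = 1
      rw [h1]
      exact Subgroup.index_top
    rw [hidx] at h2
    exact hℓ.one_lt.ne' h2
  set s : X →* X ⧸ K.subgroupOf X := QuotientGroup.mk' (K.subgroupOf X) with hs
  have hker : s.ker = K.subgroupOf X := QuotientGroup.ker_mk' _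
  have hst : s t ≠ 1 := by
    intro h
    apply ht
    rw [← hker]
    exact h
  have hPI : PI ℓ s (⊤ : Subgroup X) (K.subgroupOf X) t := by
    refine ⟨?_, trivial, ?_, ?_⟩
    · rw [hker, top_inf_eq]
    · intro x _
      have h1 : s x ∈ Submonoid.powers (s t) := mem_powers_of_prime_card hcard hst
      obtain ⟨c, hc⟩ := h1
      exact ⟨c, hc.symm⟩
    · have h1 : orderOf (s t) ∣ ℓ := by
        have := orderOf_dvd_natCard (s t)
        rwa [hcard] at this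
      rcases (Nat.dvd_prime hℓ).1 h1 with h2 | h2
      · exact absurd (orderOf_eq_one_iff.1 h2) hst
      · exact h2
  -- the inclusion
  have hi : Function.Injective X.subtype := X.subtype_injective
  have hT : (⊤ : Subgroup X).map X.subtype = X := by
    rw [← MonoidHom.range_eq_map, Subgroup.range_subtype]
  have hK : (K.subgroupOf X).map X.subtype = K := by
    rw [Subgroup.subgroupOf_map_subtype, inf_eq_left.2 hLP.le]
  obtain ⟨a1, a2, a3⟩ := hXA F π hπ ℓ X Γ X.subtype hi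
  obtain ⟨-, bX, -, bD, -⟩ := a3 ⊤ ⊤ le_rfl
  obtain ⟨-, bK, -, bDK, -⟩ := a3 (K.subgroupOf X) (K.subgroupOf X) le_rfl
  obtain ⟨-, -, -, -, bO⟩ := a3 (K.subgroupOf X) ⊤ le_top
  obtain ⟨-, -, bB, -, -⟩ := a3 ⊤ ⊤ le_rfl
  rw [hT] at bX bB
  rw [hK] at bK
  have h1e : ∀ θ : X → ℂ, extj X.subtype θ 1 = θ 1 := by
    intro θ
    have := a1 1 θ
    rwa [map_one] at this
  refine ⟨?_, ?_, ?_⟩
  · -- (1)
    intro χ hχ χ' hχ' hz
    obtain ⟨χ₀, hχ₀, rfl⟩ := bX χ hχ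
    obtain ⟨χ₁, hχ₁, rfl⟩ := bX χ' hχ'
    have h1 : Blk π (⊤ : Subgroup X) χ₀ χ₁ := by
      refine hUN F π hπ ℓ X _ s ⊤ (K.subgroupOf X) t hPI χ₀ hχ₀ χ₁ hχ₁ fun z hz' => ?_
      have h2 := Pool.Agent.H48.EA.xaE_mem hi hz'
      rw [hT, hK] at h2
      have h3 := hz _ h2
      rw [Pool.Agent.H48.EA.xa_lam π hi, Pool.Agent.H48.EA.xa_lam π hi,
        Pool.Agent.H48.EA.xaR_E hi] at h3
      exact h3
    exact (bB χ₀ hχ₀ χ₁ hχ₁).1 h1
  · -- (2)
    intro χ hχ θ hθ hO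
    obtain ⟨χ₀, hχ₀, rfl⟩ := bX χ hχ
    obtain ⟨θ₀, hθ₀, rfl⟩ := bK θ hθ
    have hO' : Over χ₀ θ₀ := (bO χ₀ hχ₀ θ₀ hθ₀).2 hO
    obtain ⟨c1, c2, -, -⟩ := hCL ℓ hℓ X _ s ⊤ (K.subgroupOf X) t hPI
    by_cases hc : cj t θ₀ = θ₀
    · left
      obtain ⟨-, -, h3⟩ := c1 θ₀ hθ₀ hc
      obtain ⟨h4, -⟩ := h3 χ₀ hχ₀ hO'
      intro k hk
      have h5 := h4 ⟨k, hLP.le hk⟩ hk
      have e1 := a1 ⟨k, hLP.le hk⟩ χ₀
      have e2 := a1 ⟨k, hLP.le hk⟩ θ₀
      have e3 : X.subtype ⟨k, hLP.le hk⟩ = k := rfl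
      rw [e3] at e1 e2
      rw [e1, e2, h5]
    · right
      obtain ⟨φ, hφ, -, h3, h4, -⟩ := c2 θ₀ hθ₀ hc
      have h5 := h4 χ₀ hχ₀ hO'
      rw [h1e, h1e, h5, h3]
  · -- (3)
    intro χ hχ θ hθ hO hSta P hP
    obtain ⟨χ₀, hχ₀, rfl⟩ := bX χ hχ
    obtain ⟨θ₀, hθ₀, rfl⟩ := bK θ hθ
    have hO' : Over χ₀ θ₀ := (bO χ₀ hχ₀ θ₀ hθ₀).2 hO
    have hPK : P ≤ K := hP.2.1
    have hPm : (P.subgroupOf X).map X.subtype = P := by
      rw [Subgroup.subgroupOf_map_subtype, inf_eq_left.2 (hPK.trans hLP.le)]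
    have hP' : DefH ℓ (K.subgroupOf X) (lam π θ₀) (P.subgroupOf X) := by
      rw [bDK θ₀ hθ₀, hPm, hK]
      exact hP
    have hSta' : Sta π (⊤ : Subgroup X) (K.subgroupOf X) θ₀ := by
      intro x _
      have h2 := hSta x x.2
      have h3 : cj (x : Γ) (extj X.subtype θ₀) = extj X.subtype (cj x θ₀) := a2 x θ₀
      rw [h3] at h2
      intro z hz'
      have h4 := Pool.Agent.H48.EA.xaE_mem hi hz'
      rw [hK] at h4
      have h5 := h2 _ h4
      rw [Pool.Agent.H48.EA.xa_lam π hi, Pool.Agent.H48.EA.xa_lam π hi,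
        Pool.Agent.H48.EA.xaR_E hi] at h5
      exact h5
    obtain ⟨-, h7⟩ := hDX F π hπ ℓ ℓ hℓ X _ s ⊤ (K.subgroupOf X) t hPI χ₀ hχ₀ θ₀ hθ₀ hO' hSta'
      (P.subgroupOf X) hP'
    obtain ⟨E, hE, hEK, hEi⟩ := h7 rfl
    refine ⟨E.map X.subtype, ?_, ?_, ?_⟩
    · have h8 := (bD χ₀ hχ₀ E).1 hE
      rwa [hT] at h8
    · rw [← hK, ← Subgroup.map_inf _ _ _ hi, hEK, hPm]
    · rw [← hPm, Subgroup.relIndex_map_map_of_injective _ _ hi, hEi]

end Pool.Agent.H68.EA
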