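import Pool.Agent.H77.EA.Targets3

/-!
# Equivariant Alperin–McKay (MP_657073_al), XL: the semidirect product with a group of
automorphisms
-/

open scoped Classical ComplexConjugate

set_option linter.unusedSectionVars false

namespace Pool.Agent.H68.EA.XL

open AMc AMe Pool.Agent.H77.EA SemidirectProduct

section

variable {G H : Type} [Group G] [Group H] {ρ : H →* MulAut G}

theorem conj_inl (x : G ⋊[ρ] H) (y : G) :
    x * inl y * x⁻¹ = inl (x.left * ρ x.right y * x.left⁻¹) := by
  have h := inl_left_mul_inr_right x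
  rw [map_mul, map_mul, inl_aut, map_inv, map_inv]
  conv_lhs => rw [← h]
  group

theorem range_normal (x z : G ⋊[ρ] H) :
    x * z * x⁻¹ ∈ (inl : G →* G ⋊[ρ] H).range ↔ z ∈ (inl : G →* G ⋊[ρ] H).range := by
  rw [range_inl_eq_ker_rightHom, MonoidHom.mem_ker, MonoidHom.mem_ker, map_mul, map_mul, map_inv]
  constructor
  · intro h
    have := congrArg (fun t => (rightHom x)⁻¹ * t * rightHom x) h
    simpa [mul_assoc] using this
  · intro h
    rw [h, mul_one, mul_inv_cancel]

theorem mem_map {D : Subgroup G} {y : G} :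
    (inl y : G ⋊[ρ] H) ∈ D.map (inl : G →* G ⋊[ρ] H) ↔ y ∈ D :=
  Subgroup.mem_map_iff_mem inl_injective

theorem mem_norm {D : Subgroup G} (hD : ∀ h g, ρ h g ∈ D ↔ g ∈ D) (x : G ⋊[ρ] H) :
    x ∈ Subgroup.normalizer ((D.map (inl : G →* G ⋊[ρ] H) : Subgroup (G ⋊[ρ] H)) :
      Set (G ⋊[ρ] H)) ↔ x.left ∈ Subgroup.normalizer (D : Set G) := by
  rw [Subgroup.mem_normalizer_iff, Subgroup.mem_normalizer_iff]
  constructor
  · intro h d
    have h1 := h (inl ((ρ x.right)⁻¹ d))
    rw [mem_map, conj_inl, mem_map] at h1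
    have h2 : ρ x.right ((ρ x.right)⁻¹ d) = d := MulAut.apply_inv_self G _ d
    rw [h2] at h1
    rw [← h1]
    have h3 := hD x.right ((ρ x.right)⁻¹ d)
    rwa [h2] at h3
  · intro h z
    by_cases hz : z ∈ (inl : G →* G ⋊[ρ] H).range
    · obtain ⟨y, rfl⟩ := hz
      rw [mem_map, conj_inl, mem_map, ← h, hD]
    · constructor
      · intro h1
        exact absurd (Subgroup.map_le_range _ _ h1) hz
      · intro h1
        exact absurd ((range_normal x z).1 (Subgroup.map_le_range _ _ h1)) hz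

end

/-- a group generated by one element modulo `P` has a commutative factor group -/
@[reducible] def commQ {ℓ : ℕ} {H : Type} [Group H] {P : Subgroup H} [P.Normal] {h₀ : H} {n : ℕ}
    (hE : HE ℓ P h₀ n) : CommGroup (H ⧸ P) :=
  { (inferInstance : Group (H ⧸ P)) with
    mul_comm := by
      have key : ∀ x : H ⧸ P, ∃ c : ℕ, x = (QuotientGroup.mk' P h₀) ^ c := by
        intro x
        obtain ⟨a, rfl⟩ := QuotientGroup.mk'_surjective P x
        obtain ⟨c, p, hp, rfl⟩ := hE.gen a
        refine ⟨c, ?_⟩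
        rw [map_mul, map_pow]
        have : QuotientGroup.mk' P p = 1 := (QuotientGroup.eq_one_iff p).2 hp
        rw [this, one_mul]
      intro x y
      obtain ⟨c, rfl⟩ := key x
      obtain ⟨d, rfl⟩ := key y
      exact (Commute.refl _).pow_pow c d }

theorem xl : T_XL := by
  intro ℓ _ G N H _ _ _ _ _ _ ρ j ρ' hj hjρ D hrange hD P h₀ n hE
  have hPn : P.Normal := hE.nor
  let _ : CommGroup (H ⧸ P) := commQ hE
  have : Finite (G ⋊[ρ] H) := Finite.of_equiv _ (SemidirectProduct.equivProd (φ := ρ)).symm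
  -- the maps
  set i : G →* G ⋊[ρ] H := inl with hi
  set X : Subgroup (G ⋊[ρ] H) := P.comap rightHom with hX
  have hXmem : ∀ x : G ⋊[ρ] H, x ∈ X ↔ x.right ∈ P := fun x => Iff.rfl
  set γ : G ⋊[ρ] H := inr h₀ with hγ
  set s : G ⋊[ρ] H →* H ⧸ P := (QuotientGroup.mk' P).comp rightHom with hs
  have hsmem : ∀ x : G ⋊[ρ] H, s x = 1 ↔ x ∈ X := by
    intro x
    rw [hXmem]
    exact QuotientGroup.eq_one_iff (N := P) (rightHom x)
  set a : (G ⋊[ρ.comp P.subtype] P) →* G ⋊[ρ] H :=
    SemidirectProduct.map (MonoidHom.id G) P.subtype (fun _ => by ext; rfl) with ha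
  set b : (N ⋊[ρ'.comp P.subtype] P) →* G ⋊[ρ] H :=
    SemidirectProduct.map j P.subtype (fun p => by ext m; exact hjρ p m) with hb
  have hnorm : ∀ x : G ⋊[ρ] H, x ∈ Subgroup.normalizer ((D.map i : Subgroup (G ⋊[ρ] H)) :
      Set (G ⋊[ρ] H)) ↔ x.left ∈ Subgroup.normalizer (D : Set G) := mem_norm hD
  refine ⟨G ⋊[ρ] H, inferInstance, Fintype.ofFinite _, H ⧸ P, inferInstance, inferInstance, i, s,
    X, γ, a, b, inl_injective, ?_, ?_, ?_, ?_, ?_, ?_, ?_, ?_, ?_, ?_, ?_⟩
  · refine ⟨⟨?_, ?_, ?_⟩, ?_, ?_, ?_, ?_, ?_, ?_, ?_, ?_, ?_⟩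
    · rintro _ ⟨g, rfl⟩
      exact P.one_mem
    · intro u _ g hg
      exact (range_normal u g).2 hg
    · obtain ⟨c, hc⟩ := (IsPGroup.iff_card).1 hE.pg
      refine ⟨c, ?_⟩
      rw [← hc]
      have e1 : i.range.subgroupOf X = ((rightHom : G ⋊[ρ] H →* H).comp X.subtype).ker := by
        ext x
        rw [Subgroup.mem_subgroupOf, MonoidHom.mem_ker, hi, range_inl_eq_ker_rightHom,
          MonoidHom.mem_ker]
        rfl
      have e2 : ((rightHom : G ⋊[ρ] H →* H).comp X.subtype).range = P := by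
        ext p
        constructor
        · rintro ⟨x, rfl⟩
          exact x.2
        · intro hp
          exact ⟨⟨inr p, hp⟩, rfl⟩
      show (i.range.subgroupOf X).index = _
      rw [e1, Subgroup.index_ker, e2]
    · exact Subgroup.map_le_range _ _
    · intro g
      exact range_normal γ g
    · intro g
      show h₀ * g.right * h₀⁻¹ ∈ P ↔ g.right ∈ P
      constructor
      · intro h
        have := hPn.conj_mem _ h h₀⁻¹
        simpa [mul_assoc] using this
      · intro h
        exact hPn.conj_mem _ h h₀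
    · rw [hnorm]
      exact Subgroup.one_mem _
    · intro x hx
      exact (hsmem x).2 hx
    · intro c hc
      rw [← map_pow] at hc
      exact (hsmem _).1 hc
    · rw [hXmem, hγ, ← map_pow]
      exact hE.pow
    · exact hE.cop
    · intro x hx
      refine ⟨i x.left⁻¹, ⟨_, rfl⟩, ?_⟩
      rw [hnorm]
      have : (i x.left⁻¹ * x).left = 1 := by
        rw [hi, mul_left, left_inl, right_inl, map_one, MulAut.one_apply, inv_mul_cancel]
      rw [this]
      exact Subgroup.one_mem _
  · intro g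
    rw [hi, hγ, inl_aut, map_inv]
  · intro x hx
    exact ⟨x.right, hx, x.left, fun g => conj_inl x g⟩
  · intro p hp
    refine ⟨inr p, ⟨hp, ?_⟩, fun g => ?_⟩
    · exact (hnorm _).2 (Subgroup.one_mem _)
    · rw [hi, inl_aut, map_inv]
  · rintro x ⟨hx, hx'⟩
    have h1 := (hnorm x).1 hx'
    rw [← hrange] at h1
    obtain ⟨k, hk⟩ := h1
    refine ⟨x.right, hx, k, fun m => ?_⟩
    have e : j (k * ρ' x.right m * k⁻¹) = x.left * ρ x.right (j m) * x.left⁻¹ := by
      rw [map_mul, map_mul, hjρ, map_inv, hk]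
    rw [e]
    exact conj_inl x (j m)
  · intro x y hxy
    have h1 := congrArg SemidirectProduct.left hxy
    have h2 := congrArg SemidirectProduct.right hxy
    rw [ha, map_left, map_left] at h1
    rw [ha, map_right, map_right] at h2
    exact SemidirectProduct.ext h1 (Subtype.ext h2)
  · ext x
    constructor
    · rintro ⟨y, rfl⟩
      exact y.right.2
    · intro hx
      refine ⟨⟨x.left, ⟨x.right, hx⟩⟩, ?_⟩
      exact SemidirectProduct.ext rfl rfl
  · intro g
    rw [ha, map_inl]
    rfl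
  · intro x y hxy
    have h1 := congrArg SemidirectProduct.left hxy
    have h2 := congrArg SemidirectProduct.right hxy
    rw [hb, map_left, map_left] at h1
    rw [hb, map_right, map_right] at h2
    exact SemidirectProduct.ext (hj h1) (Subtype.ext h2)
  · ext x
    rw [Subgroup.mem_inf, hnorm, ← hrange]
    constructor
    · rintro ⟨y, rfl⟩
      exact ⟨y.right.2, ⟨y.left, rfl⟩⟩
    · rintro ⟨hx, k, hk⟩
      refine ⟨⟨k, ⟨x.right, hx⟩⟩, ?_⟩
      exact SemidirectProduct.ext hk rfl
  · intro m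
    rw [hb, map_inl]

end Pool.Agent.H68.EA.XL
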