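import Pool.Agent.H3.AM.Basic

/-!
# B0: the residue field is algebraically closed and roots of unity of order prime to ℓ inject
-/

set_option autoImplicit false

open scoped Classical ComplexConjugate

namespace Pool.Agent.H68.EA

open AMc

theorem b0 : T_B0 := by
  intro F _ π hπ
  constructor
  · refine IsAlgClosed.of_exists_root F ?_
    intro p hmon hirr
    have hlift : p ∈ Polynomial.lifts π := by
      rw [Polynomial.lifts_iff_coeff_lifts]
      intro n
      exact hπ _
    obtain ⟨q, hq, hdeg, hqm⟩ := Polynomial.lifts_and_degree_eq_and_monic hlift hmon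
    set q' := q.map (algebraMap (integralClosure ℤ ℂ) ℂ) with hq'
    have hd : q'.degree ≠ 0 := by
      rw [hq', hqm.degree_map, hdeg]
      intro h
      exact hirr.not_isUnit (by
        rw [Polynomial.isUnit_iff_degree_eq_zero]; exact h)
    obtain ⟨z, hz⟩ := IsAlgClosed.exists_root q' hd
    have hzA : IsIntegral (integralClosure ℤ ℂ) z := by
      refine ⟨q, hqm, ?_⟩
      rw [Polynomial.IsRoot, hq', Polynomial.eval_map] at hz
      exact hz
    have hzZ : IsIntegral ℤ z := isIntegral_trans z hzA
    refine ⟨π ⟨z, hzZ⟩, ?_⟩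
    rw [← hq, Polynomial.eval_map, Polynomial.eval₂_hom]
    have h0 : Polynomial.eval (⟨z, hzZ⟩ : integralClosure ℤ ℂ) q = 0 := by
      apply Subtype.ext
      rw [Polynomial.IsRoot, hq', Polynomial.eval_map] at hz
      have h2 := Polynomial.hom_eval₂ q (RingHom.id _) (algebraMap (integralClosure ℤ ℂ) ℂ)
        (⟨z, hzZ⟩ : integralClosure ℤ ℂ)
      rw [RingHom.comp_id] at h2
      have h3 : (algebraMap (integralClosure ℤ ℂ) ℂ) (⟨z, hzZ⟩ : integralClosure ℤ ℂ) = z := rfl
      rw [h3, hz] at h2
      exact h2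
    rw [h0, map_zero]
  · intro ℓ _ _ ζ r hr hζ hrd
    by_contra hne
    have hr0 : 0 < r := by
      rcases Nat.eq_zero_or_pos r with h | h
      · exact absurd (h ▸ dvd_zero ℓ) hr
      · exact h
    have hint : IsIntegral ℤ ζ := isIntegral_of_pow_eq_one hr0 hζ
    have hs : ∑ i ∈ Finset.range r, ζ ^ i = 0 := by
      have h := mul_geom_sum ζ r
      rw [hζ, sub_self] at h
      rcases mul_eq_zero.1 h with h | h
      · exact absurd (sub_eq_zero.1 h) hne
      · exact h
    have h2 := (rd_sum π (Finset.range r) (fun i => ζ ^ i) (fun i _ => hint.pow i)).2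
    rw [hs, rd_zero] at h2
    have h3 : ∑ i ∈ Finset.range r, rd π (ζ ^ i) = (r : F) := by
      rw [Finset.sum_congr rfl (fun i _ => rd_pow π hint i)]
      simp [hrd]
    rw [h3] at h2
    exact hr ((CharP.cast_eq_zero_iff F ℓ r).1 h2.symm)

end Pool.Agent.H68.EA
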