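import Pool.Agent.H77.EA.Targets2

/-!
# Equivariant Alperin–McKay (MP_657073_al), QR: Brauer correspondence and the quotient by a
central `ℓ`-subgroup
-/

open scoped Classical ComplexConjugate

namespace Pool.Agent.H68.EA.QR

open AMc AMe Pool.Agent.H77.EA

/-- number of elements of the fibre which are conjugate to `x` -/
noncomputable def nf {M G H : Type} [Group G] (j : M → G) (q : M → H) (x : G) (h : H) : ℕ :=
  Nat.card {y : M // q y = h ∧ IsConj x (j y)}

theorem sum_fib {M G H : Type} [Fintype M] [Group G] [Fintype H] (j : M → G) (q : M → H)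
    (f : H → ℂ) (x : G) :
    (∑ y : M, if IsConj x (j y) then f (q y) else 0) = ∑ h : H, (nf j q x h : ℂ) * f h := by
  have h1 : ∀ h, (nf j q x h : ℂ) * f h =
      ∑ y : M, if q y = h ∧ IsConj x (j y) then f h else 0 := by
    intro h
    unfold nf
    rw [Nat.card_eq_fintype_card, Fintype.card_subtype, ← Finset.sum_filter, Finset.sum_const,
      nsmul_eq_mul]
  simp_rw [h1]
  rw [Finset.sum_comm]
  refine Finset.sum_congr rfl fun y _ => ?_
  by_cases hy : IsConj x (j y)
  · simp only [hy, and_true, if_true, Finset.sum_ite_eq, Finset.mem_univ]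
  · simp only [hy, and_false, if_false, Finset.sum_const_zero]

theorem nf_zero {G H : Type} [Group G] [Group H] (p : G →* H) {x : G}
    {h : H} (hn : ¬ IsConj (p x) h) : nf (MonoidHom.id G) p x h = 0 := by
  unfold nf
  rw [Nat.card_eq_zero]
  refine Or.inl ⟨?_⟩
  rintro ⟨y, h1, h2⟩
  obtain ⟨c, hc⟩ := isConj_iff.1 h2
  refine hn (isConj_iff.2 ⟨p c, ?_⟩)
  rw [← map_mul, ← map_inv, ← map_mul, hc, ← h1]
  rfl

theorem nf_conj {G H : Type} [Group G] [Group H] (p : G →* H)
    (hp : Function.Surjective p) {x : G} {h : H} (hn : IsConj (p x) h) :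
    nf (MonoidHom.id G) p x h = nf (MonoidHom.id G) p x (p x) := by
  obtain ⟨u, hu⟩ := isConj_iff.1 hn
  obtain ⟨g, rfl⟩ := hp u
  unfold nf
  refine Nat.card_congr ⟨fun y => ⟨g⁻¹ * y.1 * g, ?_, ?_⟩, fun y => ⟨g * y.1 * g⁻¹, ?_, ?_⟩,
    ?_, ?_⟩
  · rw [map_mul, map_mul, map_inv, y.2.1, ← hu]
    group
  · exact y.2.2.trans (isConj_iff.2 ⟨g⁻¹, by rw [inv_inv]; rfl⟩)
  · rw [map_mul, map_mul, map_inv, y.2.1, ← hu]
  · exact y.2.2.trans (isConj_iff.2 ⟨g, rfl⟩)
  · intro y
    apply Subtype.ext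
    show g * (g⁻¹ * y * g) * g⁻¹ = y
    group
  · intro y
    apply Subtype.ext
    show g⁻¹ * (g * y * g⁻¹) * g = y
    group

theorem nf_eq {G H : Type} [Group G] [Group H] (p : G →* H)
    (hp : Function.Surjective p) (x : G) (h : H) :
    (nf (MonoidHom.id G) p x h : ℂ) =
      (nf (MonoidHom.id G) p x (p x) : ℂ) * (if IsConj (p x) h then 1 else 0) := by
  by_cases hc : IsConj (p x) h
  · rw [if_pos hc, mul_one, nf_conj p hp hc]
  · rw [if_neg hc, mul_zero, nf_zero p hc, Nat.cast_zero]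

theorem nf_sub {G H : Type} [Group G] [Group H] (p : G →* H) (D : Subgroup G)
    (hk : p.ker ≤ D) (p' : Subgroup.normalizer (D : Set G) →*
      Subgroup.normalizer ((D.map p : Subgroup H) : Set H)) (hs : Function.Surjective p')
    (hp' : ∀ x, (p' x : H) = p (x : G)) (x : G)
    (h : Subgroup.normalizer ((D.map p : Subgroup H) : Set H)) :
    nf (Subgroup.normalizer (D : Set G)).subtype p' x h = nf (MonoidHom.id G) p x (h : H) := by
  unfold nf
  refine Nat.card_congr (Equiv.ofBijective (fun y => ⟨(y.1 : G), ?_, y.2.2⟩) ⟨?_, ?_⟩)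
  · rw [← hp', y.2.1]
  · intro y z hyz
    exact Subtype.ext (Subtype.ext (Subtype.mk.inj hyz))
  · rintro ⟨y, h4, h5⟩
    obtain ⟨y', hy'⟩ := hs h
    have h1 : p y = p (y' : G) := by rw [h4, ← hy', hp']
    have h2 : (y' : G)⁻¹ * y ∈ Subgroup.normalizer (D : Set G) := by
      refine Subgroup.le_normalizer (hk ?_)
      rw [MonoidHom.mem_ker, map_mul, map_inv, h1, inv_mul_cancel]
    have h3 : y ∈ Subgroup.normalizer (D : Set G) := by
      have := Subgroup.mul_mem _ y'.2 h2
      rwa [mul_inv_cancel_left] at this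
    exact ⟨⟨⟨y, h3⟩, Subtype.ext (by rw [hp']; exact h4), h5⟩, rfl⟩

theorem qr : T_QR := by
  intro ℓ _ 𝔪 _ _ G H _ _ _ _ p hp _ D hk p' hs hp' a b hab x
  obtain ⟨c, hc, h1⟩ := hab (p x)
  refine ⟨(nf (MonoidHom.id G) p x (p x) : integralClosure ℤ ℂ) * c,
    𝔪.mul_mem_left _ hc, ?_⟩
  have h2 : cen (MonoidHom.id G) (fun g => a (p g)) x =
      (nf (MonoidHom.id G) p x (p x) : ℂ) * cen (MonoidHom.id H) a (p x) := by
    unfold cen
    have e1 : a (p 1) = a 1 := by rw [map_one]
    rw [sum_fib (MonoidHom.id G) p a x, mul_div_assoc', Finset.mul_sum]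
    show _ / a (p 1) = _
    rw [e1]
    congr 1
    refine Finset.sum_congr rfl fun h _ => ?_
    rw [nf_eq p hp x h, mul_assoc]
    congr 1
    by_cases hh : IsConj (p x) h
    · rw [if_pos hh, one_mul]
      exact (if_pos hh).symm
    · rw [if_neg hh, zero_mul]
      exact (if_neg hh).symm
  have h3 : cen (Subgroup.normalizer (D : Set G)).subtype (fun g => b (p' g)) x =
      (nf (MonoidHom.id G) p x (p x) : ℂ) *
        cen (Subgroup.normalizer ((D.map p : Subgroup H) : Set H)).subtype b (p x) := by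
    unfold cen
    have e1 : b (p' 1) = b 1 := by rw [map_one]
    rw [sum_fib (Subgroup.normalizer (D : Set G)).subtype p' b x, mul_div_assoc',
      Finset.mul_sum]
    show _ / b (p' 1) = _
    rw [e1]
    congr 1
    refine Finset.sum_congr rfl fun h _ => ?_
    rw [nf_sub p D hk p' hs hp' x h, nf_eq p hp x h, mul_assoc]
    congr 1
    by_cases hh : IsConj (p x) (h : H)
    · rw [if_pos hh, one_mul]
      exact (if_pos hh).symm
    · rw [if_neg hh, zero_mul]
      exact (if_neg hh).symm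
  rw [h2, h3, ← mul_sub, ← h1]
  push_cast
  rfl

end Pool.Agent.H68.EA.QR
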