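import Pool.Agent.H68.EA.SA

/-!
# The ambient library of characters of subgroups: S3, S5, S6, S9
-/

set_option autoImplicit false
set_option linter.unusedSectionVars false

open scoped Classical ComplexConjugate

namespace Pool.Agent.H68.EA

open AMc

theorem sb3 (h2 : T_A2) : T_S3 := by
  intro Γ _ _ N f hf hcl hsum
  have h := h2 N (fun n : N => f n) (fun g x => hcl g g.2 x) (by
    intro χ hχ
    rw [← hsum (ext0 N χ) ⟨χ, hχ, rfl⟩,
      sum_sub N (fun g => f g * conj (ext0 N χ g)) (fun g hg => by simp only [hf g hg, zero_mul])]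
    exact Finset.sum_congr rfl fun n _ => by rw [ext0_coe])
  funext g
  by_cases hg : g ∈ N
  · exact congrFun h ⟨g, hg⟩
  · exact hf g hg

theorem om_cls (Γ : Type) [Group Γ] [Fintype Γ] (N : Subgroup Γ) (ψ : N → ℂ) (x : N) :
    om (ext0 N ψ) (cls N (x : Γ)) = cen (MonoidHom.id N) ψ x := by
  unfold om cen
  congr 1
  · have h1 : ∑ g ∈ cls N (x : Γ), ext0 N ψ g =
        ∑ g, if g ∈ cls N (x : Γ) then ext0 N ψ g else 0 := by
      rw [← Finset.sum_filter]
      congr 1
      ext g
      simp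
    rw [h1, sum_sub N (fun g => if g ∈ cls N (x : Γ) then ext0 N ψ g else 0) (fun g hg => by
      simp only [ext0_of_notMem N ψ hg, ite_self])]
    refine Finset.sum_congr rfl fun y _ => ?_
    rw [ext0_coe]
    have h2 : (y : Γ) ∈ cls N (x : Γ) ↔ IsConj x ((MonoidHom.id N) y) := by
      rw [mem_cls, isConj_iff, MonoidHom.id_apply]
      constructor
      · rintro ⟨u, hu, h⟩
        exact ⟨⟨u, hu⟩, Subtype.ext h.symm⟩
      · rintro ⟨c, hc⟩
        exact ⟨c, c.2, by rw [← hc]; rfl⟩
    by_cases hc : IsConj x ((MonoidHom.id N) y)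
    · rw [if_pos (h2.2 hc), if_pos hc]
    · rw [if_neg (fun h => hc (h2.1 h)), if_neg hc]
  · rw [ext0_of_mem N ψ N.one_mem]
    rfl

theorem sb5 (h3 : T_A3) (h5 : T_A5) : T_S5 := by
  intro Γ _ _ N θ hθ
  obtain ⟨ψ, hψ, rfl⟩ := hθ
  obtain ⟨hch, hdeg, -, -⟩ := h3 N
  obtain ⟨-, -, hint, -⟩ := hdeg ψ (hch ψ hψ).1
  refine ⟨?_, ?_⟩
  · intro g
    by_cases hg : g ∈ N
    · rw [ext0_of_mem N ψ hg]
      exact hint _
    · rw [ext0_of_notMem N ψ hg]
      exact isIntegral_zero
  · intro S
    induction h : S.card using Nat.strong_induction_on generalizing S with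
    | _ n ih =>
      intro hSN hSinv
      rcases S.eq_empty_or_nonempty with rfl | ⟨x, hx⟩
      · simp only [om, Finset.sum_empty, zero_div]
        exact isIntegral_zero
      · have hxN : x ∈ N := hSN x hx
        have hsub : cls N x ⊆ S := by
          intro g hg
          obtain ⟨u, hu, rfl⟩ := mem_cls.1 hg
          exact hSinv u hu x hx
        have hsplit : om (ext0 N ψ) S = om (ext0 N ψ) (S \ cls N x) + om (ext0 N ψ) (cls N x) := by
          unfold om
          rw [← add_div, Finset.sum_sdiff hsub]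
        rw [hsplit]
        refine IsIntegral.add ?_ ?_
        · refine ih (S \ cls N x).card ?_ (S \ cls N x) rfl ?_ ?_
          · rw [← h]
            apply Finset.card_lt_card
            refine Finset.ssubset_iff_subset_ne.2 ⟨Finset.sdiff_subset, ?_⟩
            intro he
            have h2 : x ∈ S \ cls N x := by rw [he]; exact hx
            exact (Finset.mem_sdiff.1 h2).2 (self_mem_cls N x)
          · intro g hg
            exact hSN g (Finset.mem_sdiff.1 hg).1
          · intro n hn g hg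
            rw [Finset.mem_sdiff] at hg ⊢
            exact ⟨hSinv n hn g hg.1, fun h => hg.2 ((cls_conj hn).1 h)⟩
        · have := om_cls Γ N ψ ⟨x, hxN⟩
          rw [this]
          exact h5 N ψ hψ _

/-- restriction of coefficients -/
noncomputable def resA {Γ : Type} [Group Γ] [Fintype Γ] (N : Subgroup Γ) (z : MonoidAlgebra ℂ Γ) :
    MonoidAlgebra ℂ N :=
  MonoidAlgebra.ofCoeff (Finsupp.equivFunOnFinite.symm fun n => z.coeff (n : Γ))

theorem coeff_resA {Γ : Type} [Group Γ] [Fintype Γ] (N : Subgroup Γ) (z : MonoidAlgebra ℂ Γ)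
    (n : N) : (resA N z).coeff n = z.coeff (n : Γ) := rfl

theorem resA_mul {Γ : Type} [Group Γ] [Fintype Γ] (N : Subgroup Γ) (z w : MonoidAlgebra ℂ Γ)
    (hz : ∀ g, g ∉ N → z.coeff g = 0) : resA N z * resA N w = resA N (z * w) := by
  apply MonoidAlgebra.ext
  ext n
  rw [coeff_mul_group, coeff_resA, coeff_mul_group,
    sum_sub N (fun a => z.coeff a * w.coeff (a⁻¹ * n)) (fun g hg => by
      simp only [hz g hg, zero_mul])]
  rfl

theorem sb6 (h6 : T_A6) : T_S6 := by
  intro Γ _ _ N θ hθ z hz w hw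
  obtain ⟨ψ, hψ, rfl⟩ := hθ
  have key : ∀ v : MonoidAlgebra ℂ Γ,
      ∑ g, v.coeff g * ext0 N ψ g = ∑ n : N, (resA N v).coeff n * ψ n := by
    intro v
    rw [sum_sub N (fun g => v.coeff g * ext0 N ψ g) (fun g hg => by
      simp only [ext0_of_notMem N ψ hg, mul_zero])]
    refine Finset.sum_congr rfl fun n _ => ?_
    rw [ext0_coe, coeff_resA]
  rw [key, key, key, ← resA_mul N z w hz.1, ext0_of_mem N ψ N.one_mem]
  exact h6 N ψ hψ (resA N z) (resA N w) (fun u g => hz.2 u u.2 g) (fun u g => hw.2 u u.2 g)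

theorem irrS_finite (h1 : T_A1) (Γ : Type) [Group Γ] [Fintype Γ] (N : Subgroup Γ) :
    (IrrS N).Finite := by
  have hc : (Nat.card N : ℂ) ≠ 0 := Nat.cast_ne_zero.2 Nat.card_pos.ne'
  have hli : LinearIndependent ℂ (fun θ : IrrS N => (θ : Γ → ℂ)) := by
    rw [linearIndependent_iff']
    intro s c hsum i hi
    have h : ∑ g, (∑ j ∈ s, c j • ((j : IrrS N) : Γ → ℂ)) g * conj ((i : Γ → ℂ) g) = 0 := by
      rw [hsum]
      simp
    have h2 : ∀ g, (∑ j ∈ s, c j • ((j : IrrS N) : Γ → ℂ)) g * conj ((i : Γ → ℂ) g) =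
        ∑ j ∈ s, c j * ((j : Γ → ℂ) g * conj ((i : Γ → ℂ) g)) := by
      intro g
      rw [Finset.sum_apply, Finset.sum_mul]
      refine Finset.sum_congr rfl fun j _ => ?_
      simp only [Pi.smul_apply, smul_eq_mul]
      ring
    rw [Finset.sum_congr rfl (fun g _ => h2 g), Finset.sum_comm] at h
    have h3' : ∀ j ∈ s, ∑ g, c j * ((j : Γ → ℂ) g * conj ((i : Γ → ℂ) g)) =
        if j = i then c i * (Nat.card N : ℂ) else 0 := by
      intro j _
      rw [← Finset.mul_sum, sa2 h1 Γ N j i j.2 i.2]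
      by_cases hji : j = i
      · subst hji
        rw [if_pos rfl, if_pos rfl]
      · rw [if_neg hji, if_neg (fun h => hji (Subtype.ext h)), mul_zero]
    rw [Finset.sum_congr rfl h3', Finset.sum_ite_eq' s i, if_pos hi] at h
    exact (mul_eq_zero.1 h).resolve_right hc
  exact hli.setFinite

theorem sb9 (h1 : T_A1) (h2 : T_A2) (h3 : T_A3) : T_S9 := by
  intro Γ _ _ N
  have hfin := irrS_finite h1 Γ N
  have hc : (Nat.card N : ℂ) ≠ 0 := Nat.cast_ne_zero.2 Nat.card_pos.ne'
  refine ⟨hfin.toFinset, fun θ => hfin.mem_toFinset, ?_⟩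
  set f : Γ → ℂ := fun g => (if g = 1 then 1 else 0) -
    ∑ θ ∈ hfin.toFinset, θ 1 / (Nat.card N : ℂ) * θ g with hf
  have hf0 : f = 0 := by
    apply sb3 h2 Γ N f
    · intro g hg
      have hg1 : g ≠ 1 := fun h => hg (h ▸ N.one_mem)
      simp only [hf, if_neg hg1, zero_sub, neg_eq_zero]
      refine Finset.sum_eq_zero fun θ hθ => ?_
      rw [(sa1 h3 Γ N θ (hfin.mem_toFinset.1 hθ)).1 g hg, mul_zero]
    · intro n hn g
      simp only [hf]
      congr 1
      · have : n * g * n⁻¹ = 1 ↔ g = 1 := by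
          constructor
          · intro h
            have h2 : g = n⁻¹ * (n * g * n⁻¹) * n := by group
            rw [h2, h]; group
          · rintro rfl
            group
        simp only [this]
      · refine Finset.sum_congr rfl fun θ hθ => ?_
        rw [(sa1 h3 Γ N θ (hfin.mem_toFinset.1 hθ)).2.1 n hn g]
    · intro θ' hθ'
      have hreal : conj (θ' 1) = θ' 1 := by
        obtain ⟨d, -, hd⟩ := (sa1 h3 Γ N θ' hθ').2.2.1
        rw [hd]
        exact Complex.conj_natCast d
      have h4 : ∀ g, f g * conj (θ' g) = (if g = 1 then conj (θ' g) else 0) -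
          ∑ θ ∈ hfin.toFinset, θ 1 / (Nat.card N : ℂ) * (θ g * conj (θ' g)) := by
        intro g
        simp only [hf, sub_mul, Finset.sum_mul, mul_assoc]
        congr 1
        split_ifs <;> simp
      rw [Finset.sum_congr rfl (fun g _ => h4 g), Finset.sum_sub_distrib, Finset.sum_comm,
        Finset.sum_ite_eq' Finset.univ (1 : Γ), if_pos (Finset.mem_univ _)]
      have h5 : ∀ θ ∈ hfin.toFinset, ∑ g, θ 1 / (Nat.card N : ℂ) * (θ g * conj (θ' g)) =
          if θ = θ' then θ' 1 else 0 := by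
        intro θ hθ
        rw [← Finset.mul_sum, sa2 h1 Γ N θ θ' (hfin.mem_toFinset.1 hθ) hθ']
        by_cases h : θ = θ'
        · rw [if_pos h, if_pos h, h]
          field_simp
        · rw [if_neg h, if_neg h, mul_zero]
      rw [Finset.sum_congr rfl h5, Finset.sum_ite_eq' hfin.toFinset θ',
        if_pos (hfin.mem_toFinset.2 hθ'), hreal, sub_self]
  have h6 := congrFun hf0 1
  simp only [hf, if_true, Pi.zero_apply] at h6
  have h7 : ∑ θ ∈ hfin.toFinset, θ 1 / (Nat.card N : ℂ) * θ 1 =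
      (∑ θ ∈ hfin.toFinset, θ 1 * θ 1) / (Nat.card N : ℂ) := by
    rw [Finset.sum_div]
    refine Finset.sum_congr rfl fun θ _ => ?_
    ring
  rw [h7, sub_eq_zero] at h6
  rw [eq_div_iff hc, one_mul] at h6
  exact h6.symm

end Pool.Agent.H68.EA
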