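import Pool.Agent.H3.AM.Basic

/-!
# The ambient library of characters of subgroups: S1, S2, S4, S7, S8, S10
-/

set_option autoImplicit false
set_option linter.unusedSectionVars false

open scoped Classical ComplexConjugate

namespace Pool.Agent.H68.EA

open AMc

section

variable {Γ : Type} [Group Γ] [Fintype Γ]

/-- a sum of a function vanishing off `N` is the sum over the subtype -/
theorem sum_sub (N : Subgroup Γ) [Fintype N] (f : Γ → ℂ) (hf : ∀ g, g ∉ N → f g = 0) :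
    ∑ g, f g = ∑ n : N, f n := by
  have h1 : ∑ n : N, f n = ∑ g ∈ Finset.univ.filter (fun g => g ∈ N), f g := by
    refine (Finset.sum_bij (fun (n : N) _ => (n : Γ)) ?_ ?_ ?_ ?_)
    · intro a _
      simp
    · intro a _ b _ h
      exact Subtype.ext h
    · intro b hb
      exact ⟨⟨b, by simpa using hb⟩, Finset.mem_univ _, rfl⟩
    · intro a _
      rfl
  rw [h1]
  symm
  refine Finset.sum_subset (Finset.filter_subset _ _) ?_
  intro g _ hg
  apply hf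
  simpa using hg

theorem ext0_of_mem (N : Subgroup Γ) (ψ : N → ℂ) {g : Γ} (h : g ∈ N) : ext0 N ψ g = ψ ⟨g, h⟩ := by
  unfold ext0
  rw [dif_pos h]

theorem ext0_coe (N : Subgroup Γ) (ψ : N → ℂ) (n : N) : ext0 N ψ n = ψ n :=
  ext0_of_mem N ψ n.2

theorem ext0_of_notMem (N : Subgroup Γ) (ψ : N → ℂ) {g : Γ} (h : g ∉ N) : ext0 N ψ g = 0 := by
  unfold ext0
  rw [dif_neg h]

theorem ext0_res (N : Subgroup Γ) (f : Γ → ℂ) (hf : ∀ g, g ∉ N → f g = 0) :
    ext0 N (fun n => f n) = f := by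
  funext g
  by_cases h : g ∈ N
  · rw [ext0_of_mem N _ h]
  · rw [ext0_of_notMem N _ h, hf g h]

end

theorem sa1 (h3 : T_A3) : T_S1 := by
  intro Γ _ _ N θ hθ
  obtain ⟨ψ, hψ, rfl⟩ := hθ
  obtain ⟨hch, hdeg, -, -⟩ := h3 N
  have hres : (fun n : N => ext0 N ψ n) = ψ := funext fun n => ext0_coe N ψ n
  obtain ⟨hψc, d, hd, hd1⟩ := hch ψ hψ
  obtain ⟨hcl, hconj, -, -⟩ := hdeg ψ hψc
  refine ⟨fun g hg => ext0_of_notMem N ψ hg, ?_, ⟨d, hd, ?_⟩, ?_, ?_, ?_⟩
  · intro n hn g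
    by_cases hg : g ∈ N
    · have h2 : n * g * n⁻¹ ∈ N := N.mul_mem (N.mul_mem hn hg) (N.inv_mem hn)
      rw [ext0_of_mem N ψ hg, ext0_of_mem N ψ h2]
      exact hcl ⟨n, hn⟩ ⟨g, hg⟩
    · have h2 : n * g * n⁻¹ ∉ N := by
        intro h
        apply hg
        have := N.mul_mem (N.mul_mem (N.inv_mem hn) h) hn
        have h3 : n⁻¹ * (n * g * n⁻¹) * n = g := by group
        rwa [h3] at this
      rw [ext0_of_notMem N ψ hg, ext0_of_notMem N ψ h2]
  · rw [ext0_of_mem N ψ N.one_mem]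
    exact hd1
  · intro g
    by_cases hg : g ∈ N
    · rw [ext0_of_mem N ψ hg, ext0_of_mem N ψ (N.inv_mem hg)]
      exact hconj ⟨g, hg⟩
    · have h2 : g⁻¹ ∉ N := fun h => hg (by simpa using N.inv_mem h)
      rw [ext0_of_notMem N ψ hg, ext0_of_notMem N ψ h2]
      simp
  · rw [hres]; exact hψc
  · rw [hres]; exact hψ

theorem sa2 (h1 : T_A1) : T_S2 := by
  intro Γ _ _ N θ θ' hθ hθ'
  obtain ⟨ψ, hψ, rfl⟩ := hθ
  obtain ⟨ψ', hψ', rfl⟩ := hθ'
  rw [sum_sub N (fun g => ext0 N ψ g * conj (ext0 N ψ' g))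
    (fun g hg => by simp only [ext0_of_notMem N ψ hg, zero_mul])]
  simp only [ext0_coe]
  rw [h1 N ψ ψ' hψ hψ']
  have : ψ = ψ' ↔ ext0 N ψ = ext0 N ψ' := by
    constructor
    · rintro rfl; rfl
    · intro h
      funext n
      rw [← ext0_coe N ψ, ← ext0_coe N ψ', h]
  simp only [this]

theorem sa4 (h3 : T_A3) (h4 : T_A4) : T_S4 := by
  intro Γ _ _ N U hNU χ hχ θ hθ
  obtain ⟨ψ, hψ, rfl⟩ := hθ
  obtain ⟨φ, hφ, rfl⟩ := hχ
  rw [sum_sub N (fun g => ext0 U φ g * conj (ext0 N ψ g))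
    (fun g hg => by simp only [ext0_of_notMem N ψ hg, map_zero, mul_zero])]
  obtain ⟨hchU, -, -, -⟩ := h3 U
  obtain ⟨-, -, hk, -⟩ := h3 N
  have hres : IsChar N (fun n => φ (Subgroup.inclusion hNU n)) :=
    h4.2.1 N U (Subgroup.inclusion hNU) φ (hchU φ hφ).1
  obtain ⟨k, hk⟩ := hk _ hres ψ hψ
  refine ⟨k, ?_⟩
  rw [← hk]
  refine Finset.sum_congr rfl fun n _ => ?_
  rw [ext0_coe N ψ, ext0_of_mem U φ (hNU n.2)]
  rfl

theorem sa10 (h3 : T_A3) : T_S10 := by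
  intro Γ _ _ N f hf hch hsum
  refine ⟨fun n => f n, ?_, ext0_res N f hf⟩
  obtain ⟨-, -, -, h⟩ := h3 N
  apply h _ hch
  rw [← hsum, sum_sub N (fun g => f g * conj (f g)) (fun g hg => by simp only [hf g hg, zero_mul])]

theorem sa7 (h1 : T_A1) (h3 : T_A3) (h4 : T_A4) : T_S7 := by
  intro Γ _ _ N N' u hN θ hθ
  have hS1 := sa1 h3 Γ N θ hθ
  have hS2 := sa2 h1 Γ N θ θ hθ hθ
  rw [if_pos rfl] at hS2
  let φ : N' →* N :=
    { toFun := fun g => ⟨u * g * u⁻¹, (hN g).1 g.2⟩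
      map_one' := by apply Subtype.ext; simp
      map_mul' := fun a b => by apply Subtype.ext; push_cast; group }
  have hφ : Function.Bijective φ := by
    constructor
    · intro a b hab
      have h := congrArg Subtype.val hab
      have h' : u * (a : Γ) * u⁻¹ = u * (b : Γ) * u⁻¹ := h
      apply Subtype.ext
      exact mul_left_cancel (mul_right_cancel h')
    · intro b
      have hb : u⁻¹ * (b : Γ) * u ∈ N' := by
        rw [hN]
        have : u * (u⁻¹ * (b : Γ) * u) * u⁻¹ = b := by group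
        rw [this]; exact b.2
      refine ⟨⟨_, hb⟩, ?_⟩
      apply Subtype.ext
      show u * (u⁻¹ * (b : Γ) * u) * u⁻¹ = b
      group
  have hcard : Nat.card N' = Nat.card N := Nat.card_congr (Equiv.ofBijective φ hφ)
  apply sa10 h3 Γ N' (cj u θ)
  · intro g hg
    exact hS1.1 _ (fun h => hg ((hN g).2 h))
  · exact h4.2.1 N' N φ (fun n => θ n) hS1.2.2.2.2.1
  · rw [hcard, ← hS2]
    exact Fintype.sum_equiv (MulAut.conj u).toEquiv _ _ (fun g => by simp [cj, MulAut.conj_apply])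

theorem norm_mu {Γ : Type} [Group Γ] [Fintype Γ] {Q : Type} [CommGroup Q] (s : Γ →* Q)
    (μ : Q →* ℂˣ) (g : Γ) : (μ (s g) : ℂ) * conj (μ (s g) : ℂ) = 1 := by
  have h1 : (μ (s g) : ℂ) ^ (Nat.card Γ) = 1 := by
    rw [← Units.val_pow_eq_pow_val, ← map_pow, ← map_pow, pow_card_eq_one', map_one, map_one,
      Units.val_one]
  have h2 : ‖(μ (s g) : ℂ)‖ = 1 := by
    have h3 : ‖(μ (s g) : ℂ)‖ ^ (Nat.card Γ) = 1 := by rw [← norm_pow, h1, norm_one]
    exact (pow_eq_one_iff_of_nonneg (norm_nonneg _) Nat.card_pos.ne').1 h3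
  rw [Complex.mul_conj, Complex.normSq_eq_norm_sq, h2]
  simp

theorem sa8 (h1 : T_A1) (h3 : T_A3) (h4 : T_A4) : T_S8 := by
  intro Γ _ _ Q _ s μ N θ hθ
  have hS1 := sa1 h3 Γ N θ hθ
  have hS2 := sa2 h1 Γ N θ θ hθ hθ
  rw [if_pos rfl] at hS2
  apply sa10 h3 Γ N (tw s μ θ)
  · intro g hg
    simp only [tw, hS1.1 g hg, mul_zero]
  · have hμ : IsChar N (fun n => ((μ.comp (s.comp N.subtype)) n : ℂ)) :=
      h4.2.2 N (μ.comp (s.comp N.subtype))
    exact h4.1 N _ (fun n => θ n) hμ hS1.2.2.2.2.1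
  · rw [← hS2]
    refine Finset.sum_congr rfl fun g _ => ?_
    have := norm_mu s μ g
    simp only [tw, map_mul]
    calc (μ (s g) : ℂ) * θ g * (conj (μ (s g) : ℂ) * conj (θ g)) =
        ((μ (s g) : ℂ) * conj (μ (s g) : ℂ)) * (θ g * conj (θ g)) := by ring
      _ = θ g * conj (θ g) := by rw [this, one_mul]

end Pool.Agent.H68.EA
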